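import Pool.Agent.W_f2b0dc_h28.Main

/-!
# Free products of weakly sofic groups, modulo lamplighter groups

If for every weakly sofic group `G` the lamplighter group `(Z/2) wr G` (restricted wreath product
for the regular action of `G` on itself) is weakly sofic, then the free product of every family of
weakly sofic groups is weakly sofic.

The hypothesis is the case `H = Z/2` of the statement on wreath products which is listed as known
in the problem file (Hayes, Sale).  It is not proved here.
-/

namespace Pool.Agent.Results.MP_f2b0dc_al.LamplighterReduction

open Pool.Agent.W_MP_f2b0dc_al Pool.Agent.W_f2b0dc_h28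

universe u

theorem result
    (hW : ∀ (G : Type u) [Group G], WeaklySofic G →
      WeaklySofic (RestrictedWreath (Multiplicative (ZMod 2)) G))
    (V : Type u) (Γ : V → Type u) [∀ v, Group (Γ v)] (h : ∀ v, WeaklySofic (Γ v)) :
    WeaklySofic (Monoid.CoprodI Γ) :=
  weaklySofic_coprodI hW Γ h

end Pool.Agent.Results.MP_f2b0dc_al.LamplighterReduction
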