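import Pool.Agent.W_f2b0dc_h15.Fin

/-!
# Weak soficity of graph products: a local criterion

Let `X` be a simple graph and `Γ i` groups such that every nontrivial finitely generated subgroup
of every `Γ i` has a nontrivial homomorphism to some span-sofic group or to some linear sofic
group.  Then the graph product is span-sofic, in particular weakly sofic.

The case of one vertex is a new criterion for weak soficity.  Finite groups are span-sofic, so for
instance every locally graded group satisfies the hypothesis; the class of groups which satisfy it
is closed under extensions.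
-/

namespace Pool.Agent.Results.MP_f2b0dc_al.LocalCriterionGraphProducts

open Pool.Agent.W_MP_f2b0dc_al

universe u v w x

theorem result (V : Type x) (X : SimpleGraph V) (Γ : V → Type u) [∀ i, Group (Γ i)]
    (h : ∀ i, ∀ P : Subgroup (Γ i), P.FG → P ≠ ⊥ →
      ∃ (K : Type v) (_ : Group K) (f : P →* K), f ≠ 1 ∧
        (SpanSofic K ∨ ∃ (k : Type w) (_ : Field k), LinearSofic k K)) :
    WeaklySofic (GraphProduct X Γ) ∧ SpanSofic (GraphProduct X Γ) :=
  have := Pool.Agent.W_f2b0dc_h15.spanSofic_graphProduct_of_localMaps.{u, v, w, x} V X Γ h
  ⟨this.weaklySofic, this⟩

end Pool.Agent.Results.MP_f2b0dc_al.LocalCriterionGraphProducts
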