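import Pool.Agent.W_f2b0dc_h15.Fin

/-!
# Graph products of arbitrary weakly sofic groups, modulo the theorem of Nikolov and Segal

If the theorem of Nikolov and Segal on finite groups holds (published in 2012, not proved here),
then every graph product of weakly sofic groups is weakly sofic.
-/

namespace Pool.Agent.Results.MP_f2b0dc_al.ModuloNikolovSegal

open Pool.Agent.W_MP_f2b0dc_al Pool.Agent.W_f2b0dc_h15

universe u w

theorem result (hNS : NikolovSegal) (V : Type u) (X : SimpleGraph V) (Γ : V → Type w)
    [∀ i, Group (Γ i)] (h : ∀ i, WeaklySofic (Γ i)) : WeaklySofic (GraphProduct X Γ) :=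
  (spanSofic_graphProduct X Γ fun i => spanSofic_of_weaklySofic hNS (h i)).weaklySofic

end Pool.Agent.Results.MP_f2b0dc_al.ModuloNikolovSegal
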